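import Pool.Agent.Y674.HY.Stm

/-!
# Project HY: the size of the roots, the sign of `a x`, and the assembly of the key statement
-/

set_option autoImplicit false

namespace Pool.Agent.Y824.HY

open Polynomial NumberField Pool.Agent.Y674.HY

theorem ne_zero_of_sep {f : ℤ[X]} (hs : (f.map (Int.castRingHom ℚ)).Separable) : f ≠ 0 := by
  rintro rfl
  rw [Polynomial.map_zero] at hs
  exact not_separable_zero hs

/-- the leading coefficient has absolute value at least one -/
theorem one_le_lead {f : ℤ[X]} (hf : f ≠ 0) : 1 ≤ |f.leadingCoeff| :=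
  Int.one_le_abs (leadingCoeff_ne_zero.2 hf)

/-- the size of the roots, and the sign of `a x` -/
theorem root : ROOT := by
  intro d hd f H x y hP
  obtain ⟨hdeg, hsep, hH, hc, hy⟩ := hP
  have hf := ne_zero_of_sep hsep
  have hlead : f.coeff d = f.leadingCoeff := by rw [← hdeg]; rfl
  have ha1 := one_le_lead hf
  have haH : |f.leadingCoeff| ≤ (H : ℤ) := by rw [← hlead]; exact hc d
  constructor
  · intro r hr
    have hroot : (f.map (Int.castRingHom ℂ)).eval r = 0 := by
      unfold Rt at hr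
      rw [Multiset.mem_toFinset] at hr
      exact (mem_roots'.1 hr).2
    rw [eval_map, eval₂_eq_sum_range, hdeg, Finset.sum_range_succ, hlead] at hroot
    simp only [eq_intCast] at hroot
    have haH' : ‖(f.leadingCoeff : ℂ)‖ ≤ H := by
      rw [Complex.norm_intCast]
      exact_mod_cast haH
    have hHr : (1 : ℝ) ≤ H := by exact_mod_cast hH
    rw [norm_mul]
    by_cases hr1 : ‖r‖ ≤ 1
    · calc ‖(f.leadingCoeff : ℂ)‖ * ‖r‖ ≤ H * 1 :=
          mul_le_mul haH' hr1 (norm_nonneg _) (by linarith)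
        _ ≤ 2 * H := by linarith
    · push Not at hr1
      have h1 : ‖(f.leadingCoeff : ℂ)‖ * ‖r‖ ^ d ≤ H * ∑ i ∈ Finset.range d, ‖r‖ ^ i := by
        have e : (f.leadingCoeff : ℂ) * r ^ d = - ∑ i ∈ Finset.range d, (f.coeff i : ℂ) * r ^ i :=
          eq_neg_of_add_eq_zero_right hroot
        rw [← norm_pow, ← norm_mul, e, norm_neg]
        refine (norm_sum_le _ _).trans ?_
        rw [Finset.mul_sum]
        refine Finset.sum_le_sum fun i _ => ?_
        rw [norm_mul, norm_pow]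
        refine mul_le_mul_of_nonneg_right ?_ (pow_nonneg (norm_nonneg _) _)
        rw [Complex.norm_intCast]
        exact_mod_cast hc i
      have h2 : (∑ i ∈ Finset.range d, ‖r‖ ^ i) * (‖r‖ - 1) = ‖r‖ ^ d - 1 := geom_sum_mul _ _
      have h3 : ‖(f.leadingCoeff : ℂ)‖ * (‖r‖ - 1) * ‖r‖ ^ d ≤ H * ‖r‖ ^ d := by
        calc ‖(f.leadingCoeff : ℂ)‖ * (‖r‖ - 1) * ‖r‖ ^ d
            = (‖(f.leadingCoeff : ℂ)‖ * ‖r‖ ^ d) * (‖r‖ - 1) := by ring
          _ ≤ (H * ∑ i ∈ Finset.range d, ‖r‖ ^ i) * (‖r‖ - 1) :=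
            mul_le_mul_of_nonneg_right h1 (by linarith)
          _ = H * (‖r‖ ^ d - 1) := by rw [mul_assoc, h2]
          _ ≤ H * ‖r‖ ^ d := mul_le_mul_of_nonneg_left (by linarith) (by linarith)
      have h4 : ‖(f.leadingCoeff : ℂ)‖ * (‖r‖ - 1) ≤ H :=
        le_of_mul_le_mul_right h3 (pow_pos (by linarith) _)
      linarith
  · intro hx
    have hev : f.eval x = ∑ i ∈ Finset.range d, f.coeff i * x ^ i + f.leadingCoeff * x ^ d := by
      rw [eval_eq_sum_range, hdeg, Finset.sum_range_succ, hlead]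
    set s : ℤ := ∑ i ∈ Finset.range d, f.coeff i * x ^ i with hs
    have hHz : (1 : ℤ) ≤ H := by exact_mod_cast hH
    have h1 : |s| ≤ H * ∑ i ∈ Finset.range d, |x| ^ i := by
      refine (Finset.abs_sum_le_sum_abs _ _).trans ?_
      rw [Finset.mul_sum]
      refine Finset.sum_le_sum fun i _ => ?_
      rw [abs_mul, abs_pow]
      exact mul_le_mul_of_nonneg_right (hc i) (pow_nonneg (abs_nonneg _) _)
    have h2 : (∑ i ∈ Finset.range d, |x| ^ i) * (|x| - 1) = |x| ^ d - 1 := geom_sum_mul _ _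
    have h0 : 0 ≤ ∑ i ∈ Finset.range d, |x| ^ i :=
      Finset.sum_nonneg fun i _ => pow_nonneg (abs_nonneg _) _
    have h3 : |s| < |x| ^ d := by
      have h4 : (H : ℤ) * ∑ i ∈ Finset.range d, |x| ^ i ≤
          (∑ i ∈ Finset.range d, |x| ^ i) * (|x| - 1) := by
        rw [mul_comm]
        exact mul_le_mul_of_nonneg_left (by linarith) h0
      linarith
    have h5 : |x| ^ d ≤ |f.leadingCoeff * x ^ d| := by
      rw [abs_mul, abs_pow]
      exact le_mul_of_one_le_left (pow_nonneg (abs_nonneg _) _) ha1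
    have h6 : 0 ≤ s + f.leadingCoeff * x ^ d := by
      rw [← hev, ← hy]
      exact sq_nonneg y
    have h7 : 0 < f.leadingCoeff * x ^ d := by
      by_contra hcon
      push Not at hcon
      rw [abs_of_nonpos hcon] at h5
      have := (abs_lt.1 h3).2
      linarith
    by_contra hcon
    push Not at hcon
    obtain ⟨k, rfl⟩ := hd
    have h8 : f.leadingCoeff * x ^ (2 * k + 1) = f.leadingCoeff * x * (x ^ k) ^ 2 := by ring
    rw [h8] at h7
    have h9 := mul_nonpos_of_nonpos_of_nonneg hcon (sq_nonneg (x ^ k))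
    linarith

/-- the outcome: SETUP, EST and ROOT together -/
theorem key (h1 : SETUP) (h2 : EST) (h3 : ROOT) : KEY := by
  intro d hd f H x y hP hx K _ _ ρ hρ
  obtain ⟨hR1, hR2⟩ := h3 d hd f H x y hP
  have hax := hR2 hx
  refine ⟨hax, ?_⟩
  obtain ⟨hdeg, hsep, hH, hc, hy⟩ := hP
  obtain ⟨hcard, w, c, hw⟩ := h1 d hd f hdeg hsep x y hy K ρ hρ
  have hf := ne_zero_of_sep hsep
  have hHr : (1 : ℝ) ≤ H := by exact_mod_cast hH
  have haxr : (0 : ℝ) < (f.leadingCoeff : ℝ) * x := by exact_mod_cast hax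
  have hu : 0 < U f x := Real.sqrt_pos.2 haxr
  have hu2 : U f x ^ 2 = (f.leadingCoeff : ℝ) * x := Real.sq_sqrt haxr.le
  have hB : 2 * (H : ℝ) < U f x ^ 2 := by
    rw [hu2]
    have h4 : 4 * (H : ℤ) ≤ f.leadingCoeff * x := by
      calc 4 * (H : ℤ) ≤ |x| := hx
        _ ≤ |f.leadingCoeff| * |x| :=
          le_mul_of_one_le_left (abs_nonneg _) (one_le_lead hf)
        _ = f.leadingCoeff * x := by rw [← abs_mul, abs_of_pos hax]
    have h5 : 4 * (H : ℝ) ≤ (f.leadingCoeff : ℝ) * x := by exact_mod_cast h4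
    linarith
  obtain ⟨N, hN1, hN2⟩ := h2 (Rt f) (U f x) (2 * H) hu (by linarith) hB (by rw [hcard]; exact hd)
    (K →+* ℂ) (fun σ r => (ρ.map σ).eval r) (fun r => (f.leadingCoeff : ℂ) * r) hR1
    (fun σ r hr => by
      have h4 : ((U f x : ℝ) : ℂ) ^ 2 = (f.leadingCoeff : ℂ) * x := by
        rw [← Complex.ofReal_pow, hu2]
        push_cast
        rfl
      rw [(hw σ).1 r hr, h4]
      ring)
    (fun σ τ => by rw [(hw σ).2.2, (hw τ).2.2])
  rw [hcard] at hN1 hN2
  refine ⟨w, N, hN1, fun σ => ?_⟩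
  rw [(hw σ).2.1]
  exact hN2 σ

end Pool.Agent.Y824.HY
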